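import Mathlib
import Pool.Agent.N840.CU.Index

/-!
# Groups generated by `n` circular units have bounded index in their saturation, in the whole tower

`X⁺` is finite if and only if the `p`-part of the index of the circular units in the group of all units
of `ℚ(ζ_{N p^r})` is bounded for `r → ∞` (in the eigenspaces where the circular units have finite
index). This theorem treats, instead of the group of all circular units, the groups generated by a
bounded number of circular units, at every level `r`.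

Let `ζ` be a primitive `M`-th root of unity and `K = ℚ(ζ)`. Let `ξ_1, …, ξ_n` be units of `K`, each a product
of at most `k` factors `(1 - ζ^a)^(±1)`, `a` not divisible by `M` (all levels `M / (a, M)` are allowed), and
let `C` be the group generated by them and by the roots of unity of `K`. Let `R` be an integer with
`15 k^2 n M ≤ 4 R^2 φ(M)`.

(1) The index of `C` in its saturation, the group of all `x` in `K` with a power `x^m`, `m ≥ 1`, in `C`, is
at most `2 R^n`; if `l > 2 R^n` is a prime number and `x^l` is in `C`, then `x` is in `C`.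
(2) For `M = N p^r`, `p` prime to `N`, it is enough that `15 k^2 n N p ≤ 4 R^2 φ(N) (p - 1)`. The bound
`2 R^n` depends on `n, k` and `N` only (`R` is about `2 k √(n N / φ(N))`), it is the same for all
levels `r` and all `p ≥ 5`; and for all `p > 2 R^n` the index is prime to `p` for all `r`.

Proof. By the argument of Schinzel the square sum of the logarithms of the absolute values of the
conjugates of a unit of `K` which is not a root of unity is at least `φ(M) log (27/8) / 6`; for `ξ_i`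
it is at most `1.11 k^2 M`, at all levels. Half of the combinations of the `ξ_i` with coefficients in a
box have a length not much larger than the mean square, and the box principle, applied to the elements of
the saturation and these combinations together, gives the bound. No independence is used.
-/

set_option autoImplicit false

namespace Pool.Agent.Results.MP_c2a07f_nt.BoundedIndex

open Finset

/-- `x` is a product of at most `k` factors `1 - ζ^a` and inverses of such factors, `ζ^a` not one -/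
def IsShort {K : Type} [Field K] (ζ : K) (k : ℕ) (x : K) : Prop :=
  ∃ (a : Fin k → ℕ) (s : Fin k → ℤ), (∀ j, ζ ^ a j ≠ 1) ∧ (∀ j, |s j| ≤ 1) ∧
    x = ∏ j, (1 - ζ ^ a j) ^ s j

/-- the group generated by the `ξ i` and the roots of unity -/
def gen {K : Type} [Field K] {n : ℕ} (ξ : Fin n → Kˣ) : Subgroup Kˣ :=
  Subgroup.closure (Set.range ξ ∪ {w | ∃ m : ℕ, 0 < m ∧ w ^ m = 1})

/-- the saturation of a subgroup `C`: all `x` with a power `x ^ m`, `m > 0`, in `C` -/
def sat {G : Type} [CommGroup G] (C : Subgroup G) : Subgroup G :=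
  Pool.Agent.N840.CU.sat C

/-- the description of the saturation -/
theorem mem_sat {G : Type} [CommGroup G] (C : Subgroup G) (x : G) :
    x ∈ sat C ↔ ∃ m : ℕ, 0 < m ∧ x ^ m ∈ C := Iff.rfl

/-- `C`, generated by the `ξ i` and the roots of unity, has at most the index `B` in its saturation, and
`x ^ l` is in `C` only for `x` in `C`, for all prime numbers `l > B` -/
def SmallIndex {K : Type} [Field K] {n : ℕ} (ξ : Fin n → Kˣ) (B : ℕ) : Prop :=
  (gen ξ).relIndex (sat (gen ξ)) ≠ 0 ∧ (gen ξ).relIndex (sat (gen ξ)) ≤ B ∧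
    ∀ l : ℕ, l.Prime → B < l → ∀ x : Kˣ, x ^ l ∈ gen ξ → x ∈ gen ξ

theorem prime_part {G : Type} [CommGroup G] (C : Subgroup G) (B : ℕ)
    (h0 : C.relIndex (sat C) ≠ 0) (h1 : C.relIndex (sat C) ≤ B) (l : ℕ) (hl : l.Prime)
    (hBl : B < l) (x : G) (hx : x ^ l ∈ C) : x ∈ C := by
  have hxs : x ∈ sat C := ⟨l, hl.pos, hx⟩
  have h2 : Nat.card ((sat C) ⧸ (C.subgroupOf (sat C))) = C.relIndex (sat C) := rfl
  have : Finite ((sat C) ⧸ (C.subgroupOf (sat C))) := Nat.finite_of_card_ne_zero (by rw [h2]; exact h0)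
  set y : (sat C) ⧸ (C.subgroupOf (sat C)) := QuotientGroup.mk (⟨x, hxs⟩ : sat C) with hy
  have h3 : y ^ l = 1 := by
    rw [hy, ← QuotientGroup.mk_pow, QuotientGroup.eq_one_iff, Subgroup.mem_subgroupOf]
    exact hx
  have h4 : orderOf y ∣ l := orderOf_dvd_of_pow_eq_one h3
  have h5 : orderOf y ∣ Nat.card ((sat C) ⧸ (C.subgroupOf (sat C))) := orderOf_dvd_natCard y
  rcases (Nat.dvd_prime hl).1 h4 with h6 | h6
  · have h7 : y = 1 := orderOf_eq_one_iff.1 h6
    rw [hy, QuotientGroup.eq_one_iff, Subgroup.mem_subgroupOf] at h7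
    exact h7
  · rw [h6, h2] at h5
    have := Nat.le_of_dvd (Nat.pos_of_ne_zero h0) h5
    omega

theorem general (M : ℕ) [NeZero M] (hM2 : 2 ≤ M) (K : Type) [Field K] [CharZero K]
    [IsCyclotomicExtension {M} ℚ K] (ζ : K) (hζ : IsPrimitiveRoot ζ M) (k n : ℕ)
    (ξ : Fin n → Kˣ) (h1 : ∀ i, IsIntegral ℤ (ξ i : K)) (h2 : ∀ i, IsIntegral ℤ (ξ i : K)⁻¹)
    (hk : ∀ i, IsShort ζ k (ξ i : K)) (R : ℕ) (hR0 : 0 < R)
    (hR : 15 * k ^ 2 * n * M ≤ 4 * R ^ 2 * M.totient) : SmallIndex ξ (2 * R ^ n) := by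
  obtain ⟨h3, h4⟩ := Pool.Agent.N840.CU.index hM2 hζ k n ξ h1 h2 hk R hR0 hR
  exact ⟨h3, h4, fun l hl hBl x hx => prime_part (gen ξ) _ h3 h4 l hl hBl x hx⟩

theorem result :
    (∀ (M : ℕ) [NeZero M], 2 ≤ M → ∀ (K : Type) [Field K] [CharZero K]
      [IsCyclotomicExtension {M} ℚ K] (ζ : K), IsPrimitiveRoot ζ M → ∀ (k n : ℕ)
      (ξ : Fin n → Kˣ), (∀ i, IsIntegral ℤ (ξ i : K)) → (∀ i, IsIntegral ℤ (ξ i : K)⁻¹) →
      (∀ i, IsShort ζ k (ξ i : K)) → ∀ R : ℕ, 0 < R →
      15 * k ^ 2 * n * M ≤ 4 * R ^ 2 * M.totient → SmallIndex ξ (2 * R ^ n)) ∧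
    (∀ (N p : ℕ), 0 < N → p.Prime → ¬ p ∣ N → ∀ (k n R : ℕ), 0 < R →
      15 * k ^ 2 * n * (N * p) ≤ 4 * R ^ 2 * (N.totient * (p - 1)) →
      ∀ r : ℕ, ∀ (K : Type) [Field K] [CharZero K] [IsCyclotomicExtension {N * p ^ (r + 1)} ℚ K]
      (ζ : K), IsPrimitiveRoot ζ (N * p ^ (r + 1)) → ∀ (ξ : Fin n → Kˣ),
      (∀ i, IsIntegral ℤ (ξ i : K)) → (∀ i, IsIntegral ℤ (ξ i : K)⁻¹) →
      (∀ i, IsShort ζ k (ξ i : K)) → SmallIndex ξ (2 * R ^ n)) := by
  refine ⟨fun M _ hM2 K _ _ _ ζ hζ k n ξ h1 h2 hk R hR0 hR =>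
    general M hM2 K ζ hζ k n ξ h1 h2 hk R hR0 hR, ?_⟩
  intro N p hN hp hpN k n R hR0 hR r K _ _ _ ζ hζ ξ h1 h2 hk
  have hM0 : 0 < N * p ^ (r + 1) := Nat.mul_pos hN (pow_pos hp.pos _)
  have : NeZero (N * p ^ (r + 1)) := ⟨hM0.ne'⟩
  have hM2 : 2 ≤ N * p ^ (r + 1) := by
    have h3 : 2 ≤ p ^ (r + 1) := hp.two_le.trans (Nat.le_self_pow (Nat.succ_ne_zero r) p)
    calc 2 ≤ p ^ (r + 1) := h3
      _ ≤ N * p ^ (r + 1) := Nat.le_mul_of_pos_left _ hN
  have hφ : (N * p ^ (r + 1)).totient = N.totient * (p ^ r * (p - 1)) := by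
    rw [Nat.totient_mul, Nat.totient_prime_pow_succ hp]
    exact (Nat.Coprime.pow_right _ ((Nat.coprime_comm.1
      ((Nat.Prime.coprime_iff_not_dvd hp).2 hpN))))
  refine general (N * p ^ (r + 1)) hM2 K ζ hζ k n ξ h1 h2 hk R hR0 ?_
  rw [hφ]
  calc 15 * k ^ 2 * n * (N * p ^ (r + 1)) = (15 * k ^ 2 * n * (N * p)) * p ^ r := by ring
    _ ≤ (4 * R ^ 2 * (N.totient * (p - 1))) * p ^ r := Nat.mul_le_mul_right _ hR
    _ = _ := by ring

end Pool.Agent.Results.MP_c2a07f_nt.BoundedIndex
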